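import Pool.Agent.helper62.QU.Spec

/-!
# MP_07c750, row qu:LAK: the Laplace operator on point pair invariants
-/

open scoped MatrixGroups ContDiff Topology UpperHalfPlane
open UpperHalfPlane MeasureTheory Filter Set

namespace Pool.Agent.QU

/-- the point pair invariant in coordinates -/
noncomputable def LAK_T (a b : ℝ) (z : ℂ) : ℝ :=
  ((z.re - a) ^ 2 + (z.im - b) ^ 2) / (2 * z.im * b)

/-- its derivative in `x` -/
noncomputable def LAK_Tx (a b : ℝ) (z : ℂ) : ℝ := (z.re - a) / (z.im * b)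

/-- its derivative in `y` -/
noncomputable def LAK_Ty (a b : ℝ) (z : ℂ) : ℝ := (z.im - b) / (z.im * b) - LAK_T a b z / z.im

/-- the linear form with the coefficients `p`, `q` -/
noncomputable def LAK_l (p q : ℝ) : ℂ →L[ℝ] ℝ := p • Complex.reCLM + q • Complex.imCLM

lemma LAK_l_apply (p q : ℝ) (v : ℂ) : LAK_l p q v = p * v.re + q * v.im := by
  simp [LAK_l]

lemma LAK_eq (w : ℍ) {z : ℂ} (hz : 0 < z.im) (κ : ℝ → ℝ) :
    onC (fun z => κ (tt z w)) z = κ (LAK_T w.re w.im z) := by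
  unfold onC
  show κ (tt (ofComplex z) w) = κ (LAK_T w.re w.im z)
  congr 1
  have h1 : ((ofComplex z : ℍ) : ℂ) = z := by
    rw [ofComplex_apply_of_im_pos hz]
  have h2 : (ofComplex z : ℍ).im = z.im := by
    rw [← coe_im, h1]
  unfold tt LAK_T
  rw [h1, h2, ← Complex.normSq_eq_norm_sq, Complex.normSq_apply, Complex.sub_re, Complex.sub_im,
    coe_re, coe_im]
  ring

lemma LAK_isOpen : IsOpen {w : ℂ | 0 < w.im} := isOpen_lt continuous_const Complex.continuous_im

lemma LAK_T_contDiffOn (a b : ℝ) (hb : b ≠ 0) (n : WithTop ℕ∞) :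
    ContDiffOn ℝ n (LAK_T a b) {w : ℂ | 0 < w.im} := by
  have hre : ContDiff ℝ n (fun z : ℂ => z.re) := Complex.reCLM.contDiff
  have him : ContDiff ℝ n (fun z : ℂ => z.im) := Complex.imCLM.contDiff
  unfold LAK_T
  refine ContDiffOn.div ?_ ?_ ?_
  · exact (((hre.sub contDiff_const).pow 2).add ((him.sub contDiff_const).pow 2)).contDiffOn
  · exact ((contDiff_const.mul him).mul contDiff_const).contDiffOn
  · intro z hz
    have hz' : (0 : ℝ) < z.im := hz
    exact mul_ne_zero (mul_ne_zero two_ne_zero hz'.ne') hb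

lemma LAK_re (z : ℂ) : HasFDerivAt (fun z : ℂ => z.re) Complex.reCLM z :=
  Complex.reCLM.hasFDerivAt

lemma LAK_im (z : ℂ) : HasFDerivAt (fun z : ℂ => z.im) Complex.imCLM z :=
  Complex.imCLM.hasFDerivAt

lemma LAK_div {f g : ℂ → ℝ} {f' g' : ℂ →L[ℝ] ℝ} {z : ℂ} (hf : HasFDerivAt f f' z)
    (hg : HasFDerivAt g g' z) (h : g z ≠ 0) :
    HasFDerivAt (fun x => f x / g x) ((1 / g z) • f' - (f z / g z ^ 2) • g') z := by
  have h1 : HasFDerivAt (fun x => (g x)⁻¹) ((-(g z ^ 2)⁻¹) • g') z :=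
    (hasDerivAt_inv h).comp_hasFDerivAt z hg
  have h2 := hf.mul h1
  have h3 : (fun x => f x / g x) = fun x => f x * (g x)⁻¹ := by
    funext x
    rw [div_eq_mul_inv]
  rw [h3]
  refine h2.congr_fderiv ?_
  apply ContinuousLinearMap.ext
  intro v
  simp
  field_simp
  ring

lemma LAK_hT (a b : ℝ) (hb : b ≠ 0) {z : ℂ} (hz : 0 < z.im) :
    HasFDerivAt (LAK_T a b) (LAK_l (LAK_Tx a b z) (LAK_Ty a b z)) z := by
  have hz0 : z.im ≠ 0 := hz.ne'
  have h1 := LAK_div ((((LAK_re z).sub_const a).pow 2).add (((LAK_im z).sub_const b).pow 2))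
    (((LAK_im z).const_mul 2).mul_const b) (mul_ne_zero (mul_ne_zero two_ne_zero hz0) hb)
  refine h1.congr_fderiv ?_
  apply ContinuousLinearMap.ext
  intro v
  rw [LAK_l_apply]
  simp [LAK_Tx, LAK_Ty, LAK_T]
  field_simp
  ring

lemma LAK_hTx (a b : ℝ) (hb : b ≠ 0) {z : ℂ} (hz : 0 < z.im) :
    HasFDerivAt (LAK_Tx a b) (LAK_l (1 / (z.im * b)) (-((z.re - a) / (z.im ^ 2 * b)))) z := by
  have hz0 : z.im ≠ 0 := hz.ne'
  have h1 := LAK_div ((LAK_re z).sub_const a) ((LAK_im z).mul_const b) (mul_ne_zero hz0 hb)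
  refine h1.congr_fderiv ?_
  apply ContinuousLinearMap.ext
  intro v
  rw [LAK_l_apply]
  simp
  field_simp
  ring

lemma LAK_hTy (a b : ℝ) (hb : b ≠ 0) {z : ℂ} (hz : 0 < z.im) :
    HasFDerivAt (LAK_Ty a b) (LAK_l (-(LAK_Tx a b z / z.im))
      (1 / z.im ^ 2 - LAK_Ty a b z / z.im + LAK_T a b z / z.im ^ 2)) z := by
  have hz0 : z.im ≠ 0 := hz.ne'
  have h1 := (LAK_div ((LAK_im z).sub_const b) ((LAK_im z).mul_const b) (mul_ne_zero hz0 hb)).sub
    (LAK_div (LAK_hT a b hb hz) (LAK_im z) hz0)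
  refine h1.congr_fderiv ?_
  apply ContinuousLinearMap.ext
  intro v
  rw [LAK_l_apply]
  simp [LAK_l_apply]
  field_simp
  ring

lemma LAK_lap (κ : ℝ → ℝ) (w z : ℍ) (hκ : ContDiff ℝ 2 κ) :
    lap (fun z => κ (tt z w)) z = LL κ (tt z w) := by
  set a := w.re with ha
  set b := w.im with hb'
  have hb : b ≠ 0 := w.im_pos.ne'
  have hbpos : 0 < b := w.im_pos
  have hz : 0 < (z : ℂ).im := z.im_pos
  set F : ℂ → ℝ := onC (fun z => κ (tt z w)) with hF
  have hκ1 : Differentiable ℝ κ := hκ.differentiable (by norm_num)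
  have hκ2 : Differentiable ℝ (deriv κ) := by
    have : ContDiff ℝ 1 (deriv κ) := ((contDiff_succ_iff_deriv (n := 1)).1 hκ).2.2
    exact this.differentiable (by norm_num)
  set p : ℂ → ℝ := fun z => deriv κ (LAK_T a b z) * LAK_Tx a b z with hp
  set q : ℂ → ℝ := fun z => deriv κ (LAK_T a b z) * LAK_Ty a b z with hq
  have hF1 : ∀ z' : ℂ, 0 < z'.im → HasFDerivAt F (LAK_l (p z') (q z')) z' := by
    intro z' hz'
    have h1 : HasFDerivAt (fun z => κ (LAK_T a b z))
        (deriv κ (LAK_T a b z') • LAK_l (LAK_Tx a b z') (LAK_Ty a b z')) z' :=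
      (hκ1 _).hasDerivAt.comp_hasFDerivAt z' (LAK_hT a b hb hz')
    have h2 : F =ᶠ[𝓝 z'] fun z => κ (LAK_T a b z) := by
      filter_upwards [LAK_isOpen.mem_nhds hz'] with y hy
      exact LAK_eq w hy κ
    refine (h1.congr_of_eventuallyEq h2).congr_fderiv ?_
    apply ContinuousLinearMap.ext
    intro v
    simp [LAK_l_apply, hp, hq]
    ring
  have hF2 : fderiv ℝ F =ᶠ[𝓝 (z : ℂ)] fun z' => p z' • Complex.reCLM + q z' • Complex.imCLM := by
    filter_upwards [LAK_isOpen.mem_nhds hz] with y hy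
    exact (hF1 y hy).fderiv
  have hκT : HasFDerivAt (fun z => deriv κ (LAK_T a b z)) (deriv (deriv κ) (LAK_T a b z) •
      LAK_l (LAK_Tx a b z) (LAK_Ty a b z)) (z : ℂ) :=
    (hκ2 _).hasDerivAt.comp_hasFDerivAt (z : ℂ) (LAK_hT a b hb hz)
  have hp1 := hκT.mul (LAK_hTx a b hb hz)
  have hq1 := hκT.mul (LAK_hTy a b hb hz)
  have hΦ := (hp1.smul_const Complex.reCLM).add (hq1.smul_const Complex.imCLM)
  have hF3 : fderiv ℝ (fderiv ℝ F) (z : ℂ) = _ := (hF2.fderiv_eq).trans hΦ.fderiv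
  have hT : tt z w = LAK_T a b (z : ℂ) := by
    have h1 := LAK_eq w hz id
    unfold onC at h1
    rw [ofComplex_apply] at h1
    exact h1
  unfold lap
  rw [← hF, hF3, hT]
  have e1 : (z : ℂ).re = z.re := rfl
  have e2 : (z : ℂ).im = z.im := rfl
  have hzi : z.im ≠ 0 := z.im_pos.ne'
  simp [LAK_l_apply, LL]
  set A := deriv (deriv κ) (LAK_T a b (z : ℂ))
  set B := deriv κ (LAK_T a b (z : ℂ))
  set T := LAK_T a b (z : ℂ) with hTdef
  have hx : LAK_Tx a b (z : ℂ) = (z.re - a) / (z.im * b) := rfl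
  have hy : LAK_Ty a b (z : ℂ) = (z.im - b) / (z.im * b) - T / z.im := rfl
  have hTx : (z.re - a) ^ 2 = 2 * z.im * b * T - (z.im - b) ^ 2 := by
    rw [hTdef]
    unfold LAK_T
    rw [e1, e2]
    field_simp
    ring
  have hA : z.im ^ 2 * (LAK_Tx a b (z : ℂ) ^ 2 + LAK_Ty a b (z : ℂ) ^ 2) = T * (T + 2) := by
    rw [hx, hy, div_pow, hTx]
    field_simp
    ring
  have hB : z.im ^ 2 * (b⁻¹ * z.im⁻¹ + ((z.im ^ 2)⁻¹ - LAK_Ty a b (z : ℂ) / z.im +
      T / z.im ^ 2)) = 2 * (T + 1) := by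
    rw [hy]
    field_simp
    ring
  linear_combination (-A) * hA + (-B) * hB

theorem LAK (h1 : TTT_stmt) (_h2 : CA1_stmt) : LAK_stmt := by
  refine ⟨?_, ?_, ?_, ?_, ?_⟩
  · intro κ n w hκ
    have h3 : ContDiffOn ℝ n (fun z => κ (LAK_T w.re w.im z)) {w : ℂ | 0 < w.im} :=
      hκ.comp_contDiffOn (LAK_T_contDiffOn _ _ w.im_pos.ne' n)
    exact h3.congr fun z hz => LAK_eq w hz κ
  · exact LAK_lap
  · intro κ w hκ
    obtain ⟨s, hs⟩ := hκ.supp
    obtain ⟨R, hR0, hR⟩ := h1.2.2.2.2.2.1 s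
    refine HasCompactSupport.of_support_subset_isCompact (isCompact_closedBall w R) ?_
    intro z hz
    rw [Metric.mem_closedBall]
    apply hR
    by_contra hcon
    exact hz (hs _ (not_le.1 hcon).le)
  · intro κ hκ
    have hd1 : ContDiff ℝ ∞ (deriv κ) := (contDiff_infty_iff_deriv.1 hκ.smooth).2
    have hd2 : ContDiff ℝ ∞ (deriv (deriv κ)) := (contDiff_infty_iff_deriv.1 hd1).2
    refine ⟨?_, ?_⟩
    · unfold LL
      exact (((contDiff_id.mul (contDiff_id.add contDiff_const)).mul hd2).add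
        ((contDiff_const.mul (contDiff_id.add contDiff_const)).mul hd1)).neg
    · obtain ⟨s, hs⟩ := hκ.supp
      have h3 : ∀ t, s < t → deriv κ t = 0 := by
        intro t ht
        have : κ =ᶠ[𝓝 t] fun _ => 0 := by
          filter_upwards [Ioi_mem_nhds ht] with y hy
          exact hs y (le_of_lt hy)
        rw [this.deriv_eq, deriv_const]
      refine ⟨s + 1, fun t ht => ?_⟩
      have ht' : s < t := by linarith
      have h4 : deriv (deriv κ) t = 0 := by
        have : deriv κ =ᶠ[𝓝 t] fun _ => 0 := by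
          filter_upwards [Ioi_mem_nhds ht'] with y hy
          exact h3 y hy
        rw [this.deriv_eq, deriv_const]
      unfold LL
      rw [h4, h3 t ht']
      ring
  · intro κ κ' c c' hκ hκ'
    refine ⟨?_, ?_⟩
    · exact (contDiff_const.mul hκ.smooth).add (contDiff_const.mul hκ'.smooth)
    · obtain ⟨s, hs⟩ := hκ.supp
      obtain ⟨s', hs'⟩ := hκ'.supp
      refine ⟨max s s', fun t ht => ?_⟩
      rw [hs t ((le_max_left _ _).trans ht), hs' t ((le_max_right _ _).trans ht)]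
      ring

end Pool.Agent.QU
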